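import Mathlib

/-!
# MP_cda11a_an: a totally disconnected system with the diagonal in `G ^ 2` without (1,2)-shadowing

The space is `X = (ℕ∞ × ℕ∞) ⊕ ℕ∞` (compact, countable, totally disconnected), and `G` is the
symmetric closed relation with
* `(m, l) ~ (m + 1, ∞)` for `m ≤ l`,
* `(m, l) ~ d_l` for `l + 1 ≤ m`.
Every point has a `G`-neighbour, so by symmetry the diagonal lies in `G ^ 2`.
-/

namespace Pool.Agent.Results.MP_cda11a_an.NoShadowing

open Set Topology Filter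

/-- `(x,y) ∈ G ^ n`: there is a chain `x = c 0, c 1, ..., c n = y` with consecutive terms
related by `G`. -/
def InPower {X : Type} (G : Set (X × X)) (n : ℕ) (x y : X) : Prop :=
  ∃ c : ℕ → X, c 0 = x ∧ c n = y ∧ ∀ k < n, (c k, c (k + 1)) ∈ G

/-- `x` is a `(V,1)`-pseudo-orbit: `(y, x (m+1)) ∈ V` for every `m` and every `y ∈ G(x m)`. -/
def IsPseudoOrbit1 {X : Type} (G V : Set (X × X)) (x : ℕ → X) : Prop :=
  ∀ m, ∀ y, (x m, y) ∈ G → (y, x (m + 1)) ∈ V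

/-- The point `y` `(U,2)`-shadows `x`: some trajectory `t` of `y` satisfies
`(t m, x m) ∈ U` for all `m`. -/
def Shadows2 {X : Type} (G U : Set (X × X)) (y : X) (x : ℕ → X) : Prop :=
  ∃ t : ℕ → X, t 0 = y ∧ (∀ m, (t m, t (m + 1)) ∈ G) ∧ ∀ m, (t m, x m) ∈ U

/-- The (1,2)-shadowing property; entourages of a compact Hausdorff space are the neighbourhoods
of the diagonal. -/
def HasShadowing12 {X : Type} [TopologicalSpace X] (G : Set (X × X)) : Prop :=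
  ∀ U ∈ 𝓝ˢ (diagonal X), ∃ V ∈ 𝓝ˢ (diagonal X), ∀ x : ℕ → X, IsPseudoOrbit1 G V x →
    ∃ y, Shadows2 G U y x

/-- The space. -/
abbrev Sp : Type := (ℕ∞ × ℕ∞) ⊕ ℕ∞

instance instT2Sp : T2Space Sp := inferInstanceAs (T2Space ((ℕ∞ × ℕ∞) ⊕ ℕ∞))

instance instT2SpSp : T2Space (Sp × Sp) := Prod.t2Space

/-- first half of the relation -/
def R₁ : Set (Sp × Sp) := (fun p : ℕ∞ × ℕ∞ => ((Sum.inl p, Sum.inl (p.1 + 1, ⊤)) : Sp × Sp)) ''
  {p | p.1 ≤ p.2}

/-- second half of the relation -/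
def R₂ : Set (Sp × Sp) := (fun p : ℕ∞ × ℕ∞ => ((Sum.inl p, Sum.inr p.2) : Sp × Sp)) ''
  {p | p.2 + 1 ≤ p.1}

/-- the relation -/
def Rel : Set (Sp × Sp) := (R₁ ∪ Prod.swap '' R₁) ∪ (R₂ ∪ Prod.swap '' R₂)

lemma mem_R₁ {p : Sp × Sp} :
    p ∈ R₁ ↔ ∃ m l : ℕ∞, m ≤ l ∧ p = (Sum.inl (m, l), Sum.inl (m + 1, ⊤)) := by
  constructor
  · rintro ⟨⟨m, l⟩, h, rfl⟩; exact ⟨m, l, h, rfl⟩
  · rintro ⟨m, l, h, rfl⟩; exact ⟨(m, l), h, rfl⟩

lemma mem_R₂ {p : Sp × Sp} :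
    p ∈ R₂ ↔ ∃ m l : ℕ∞, l + 1 ≤ m ∧ p = (Sum.inl (m, l), Sum.inr l) := by
  constructor
  · rintro ⟨⟨m, l⟩, h, rfl⟩; exact ⟨m, l, h, rfl⟩
  · rintro ⟨m, l, h, rfl⟩; exact ⟨(m, l), h, rfl⟩

lemma mem_Rel {a b : Sp} : (a, b) ∈ Rel ↔
    (∃ m l : ℕ∞, m ≤ l ∧ a = Sum.inl (m, l) ∧ b = Sum.inl (m + 1, ⊤)) ∨
    (∃ m l : ℕ∞, m ≤ l ∧ b = Sum.inl (m, l) ∧ a = Sum.inl (m + 1, ⊤)) ∨
    (∃ m l : ℕ∞, l + 1 ≤ m ∧ a = Sum.inl (m, l) ∧ b = Sum.inr l) ∨
    (∃ m l : ℕ∞, l + 1 ≤ m ∧ b = Sum.inl (m, l) ∧ a = Sum.inr l) := by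
  have h1 : (a, b) ∈ Prod.swap '' R₁ ↔ (b, a) ∈ R₁ := by
    constructor
    · rintro ⟨⟨c, d⟩, h, heq⟩
      simp only [Prod.swap_prod_mk, Prod.mk.injEq] at heq
      rw [← heq.1, ← heq.2]; exact h
    · intro h; exact ⟨(b, a), h, rfl⟩
  have h2 : (a, b) ∈ Prod.swap '' R₂ ↔ (b, a) ∈ R₂ := by
    constructor
    · rintro ⟨⟨c, d⟩, h, heq⟩
      simp only [Prod.swap_prod_mk, Prod.mk.injEq] at heq
      rw [← heq.1, ← heq.2]; exact h
    · intro h; exact ⟨(b, a), h, rfl⟩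
  unfold Rel
  rw [mem_union, mem_union, mem_union, h1, h2, mem_R₁, mem_R₁, mem_R₂, mem_R₂]
  simp only [Prod.mk.injEq]
  rw [or_assoc]

lemma isClosed_R₁ : IsClosed R₁ := by
  have hc : IsClosed {p : ℕ∞ × ℕ∞ | p.1 ≤ p.2} := isClosed_le continuous_fst continuous_snd
  refine (hc.isCompact.image ?_).isClosed
  exact (continuous_inl.prodMk (continuous_inl.comp
    ((continuous_fst.add continuous_const).prodMk continuous_const)))

lemma isClosed_R₂ : IsClosed R₂ := by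
  have hc : IsClosed {p : ℕ∞ × ℕ∞ | p.2 + 1 ≤ p.1} :=
    isClosed_le (continuous_snd.add continuous_const) continuous_fst
  refine (hc.isCompact.image ?_).isClosed
  exact (continuous_inl.prodMk (continuous_inr.comp continuous_snd))

lemma isClosed_Rel : IsClosed Rel := by
  refine IsClosed.union (IsClosed.union isClosed_R₁ ?_) (IsClosed.union isClosed_R₂ ?_)
  · exact (isClosed_R₁.isCompact.image continuous_swap).isClosed
  · exact (isClosed_R₂.isCompact.image continuous_swap).isClosed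

lemma Rel_symm {a b : Sp} (h : (a, b) ∈ Rel) : (b, a) ∈ Rel := by
  rw [mem_Rel] at h ⊢
  rcases h with h | h | h | h
  · exact Or.inr (Or.inl h)
  · exact Or.inl h
  · exact Or.inr (Or.inr (Or.inr h))
  · exact Or.inr (Or.inr (Or.inl h))

lemma exists_neighbour (a : Sp) : ∃ b, (a, b) ∈ Rel := by
  rcases a with ⟨m, l⟩ | l
  · rcases le_or_gt m l with h | h
    · exact ⟨Sum.inl (m + 1, ⊤), mem_Rel.2 (Or.inl ⟨m, l, h, rfl, rfl⟩)⟩
    · exact ⟨Sum.inr l, mem_Rel.2 (Or.inr (Or.inr (Or.inl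
        ⟨m, l, Order.add_one_le_of_lt h, rfl, rfl⟩)))⟩
  · exact ⟨Sum.inl (⊤, l), mem_Rel.2 (Or.inr (Or.inr (Or.inr ⟨⊤, l, le_top, rfl, rfl⟩)))⟩

lemma diag_power (a : Sp) : InPower Rel 2 a a := by
  obtain ⟨b, hb⟩ := exists_neighbour a
  refine ⟨fun k => if k = 1 then b else a, by simp, by simp, ?_⟩
  intro k hk
  have : k = 0 ∨ k = 1 := by omega
  rcases this with rfl | rfl
  · simpa using hb
  · simpa using Rel_symm hb

/-- the part of the space invariant under the relation -/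
def T : Set Sp := {a | ∃ m l : ℕ∞, m < ⊤ ∧ m ≤ l ∧ a = Sum.inl (m, l)}

lemma T_inv {a b : Sp} (h : (a, b) ∈ Rel) (ha : a ∈ T) : b ∈ T := by
  obtain ⟨m, l, hm, hml, rfl⟩ := ha
  rw [mem_Rel] at h
  rcases h with ⟨m', l', h1, h2, h3⟩ | ⟨m', l', h1, h2, h3⟩ | ⟨m', l', h1, h2, h3⟩ |
    ⟨m', l', h1, h2, h3⟩
  · simp only [Sum.inl.injEq, Prod.mk.injEq] at h2
    obtain ⟨rfl, rfl⟩ := h2
    refine ⟨m + 1, ⊤, ?_, le_top, h3⟩
    exact WithTop.add_lt_top.2 ⟨hm, by decide⟩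
  · simp only [Sum.inl.injEq, Prod.mk.injEq] at h3
    refine ⟨m', l', ?_, h1, h2⟩
    rw [h3.1] at hm
    exact (WithTop.add_lt_top.1 hm).1
  · simp only [Sum.inl.injEq, Prod.mk.injEq] at h2
    obtain ⟨rfl, rfl⟩ := h2
    exfalso
    have h4 : l + 1 ≤ l := h1.trans hml
    have h5 : l ≠ ⊤ := fun hl => by
      rw [hl] at h1
      exact absurd (top_le_iff.1 (le_self_add.trans h1)) hm.ne
    exact absurd h4 (not_le.2 (ENat.lt_add_one_iff h5 |>.2 le_rfl))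
  · simp at h3

/-- **Disproof.** -/
theorem result : ∃ (X : Type) (_ : TopologicalSpace X) (_ : CompactSpace X) (_ : T2Space X)
    (_ : TotallyDisconnectedSpace X) (_ : Nonempty X) (G : Set (X × X)) (n : ℕ),
    G.Nonempty ∧ IsClosed G ∧ 1 ≤ n ∧ (∀ x, InPower G n x x) ∧ ¬ HasShadowing12 G := by
  refine ⟨Sp, inferInstance, inferInstance, inferInstance, inferInstance, inferInstance, Rel, 2,
    ?_, isClosed_Rel, by norm_num, diag_power, ?_⟩
  · obtain ⟨b, hb⟩ := exists_neighbour (Sum.inr 0)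
    exact ⟨_, hb⟩
  intro hsh
  -- the entourage U
  let C0 : Set Sp := {a | ∃ l : ℕ∞, a = Sum.inl (0, l)}
  let D : Set Sp := range Sum.inr
  have hC0 : IsOpen C0 := by
    have h1 : IsOpen ({0} : Set ℕ∞) := ENat.isOpen_singleton (by decide)
    have h2 : C0 = Sum.inl '' ({0} ×ˢ (univ : Set ℕ∞)) := by
      ext a
      constructor
      · rintro ⟨l, rfl⟩; exact ⟨(0, l), by simp, rfl⟩
      · rintro ⟨⟨m, l⟩, h, rfl⟩
        simp only [mem_prod, mem_singleton_iff, mem_univ, and_true] at h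
        exact ⟨l, by rw [h]⟩
    rw [h2]
    exact isOpenMap_inl _ (h1.prod isOpen_univ)
  have hC0c : IsClosed C0 := by
    have h1 : IsClosed ({0} : Set ℕ∞) := isClosed_singleton
    have h2 : C0 = Sum.inl '' ({0} ×ˢ (univ : Set ℕ∞)) := by
      ext a
      constructor
      · rintro ⟨l, rfl⟩; exact ⟨(0, l), by simp, rfl⟩
      · rintro ⟨⟨m, l⟩, h, rfl⟩
        simp only [mem_prod, mem_singleton_iff, mem_univ, and_true] at h
        exact ⟨l, by rw [h]⟩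
    rw [h2]
    exact IsClosedEmbedding.inl.isClosedMap _ (h1.prod isClosed_univ)
  have hD : IsOpen D := isOpen_range_inr
  have hDc : IsClosed D := isClosed_range_inr
  let U : Set (Sp × Sp) := ((C0 ×ˢ C0) ∪ (C0ᶜ ×ˢ C0ᶜ)) ∩ ((D ×ˢ D) ∪ (Dᶜ ×ˢ Dᶜ))
  have hUo : IsOpen U := by
    refine IsOpen.inter (IsOpen.union (hC0.prod hC0) (hC0c.isOpen_compl.prod hC0c.isOpen_compl))
      (IsOpen.union (hD.prod hD) (hDc.isOpen_compl.prod hDc.isOpen_compl))
  have hUd : diagonal Sp ⊆ U := by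
    rintro ⟨a, b⟩ h
    rw [mem_diagonal_iff] at h
    dsimp at h
    subst h
    by_cases h1 : a ∈ C0 <;> by_cases h2 : a ∈ D <;>
      simp only [U, mem_inter_iff, mem_union, mem_prod, mem_compl_iff, h1, h2, not_true, not_false_iff,
        and_self, true_or, or_true]
  obtain ⟨V, hV, hVsh⟩ := hsh U (hUo.mem_nhdsSet.2 hUd)
  have hVn : ∀ a : Sp, V ∈ 𝓝 (a, a) := fun a => by
    exact mem_nhdsSet_iff_forall.1 hV (a, a) rfl
  have hVr : ∀ a : Sp, (a, a) ∈ V := fun a => mem_of_mem_nhds (hVn a)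
  -- choice of M
  obtain ⟨M, hM⟩ : ∃ M : ℕ, ∀ a b c d : ℕ∞, (M : ℕ∞) ≤ a → (M : ℕ∞) ≤ b → (M : ℕ∞) ≤ c →
      (M : ℕ∞) ≤ d → ((Sum.inl (a, b), Sum.inl (c, d)) : Sp × Sp) ∈ V := by
    have h1 : Continuous fun q : (ℕ∞ × ℕ∞) × (ℕ∞ × ℕ∞) =>
        ((Sum.inl q.1, Sum.inl q.2) : Sp × Sp) :=
      (continuous_inl.comp continuous_fst).prodMk (continuous_inl.comp continuous_snd)
    have h2 : ∀ᶠ q : (ℕ∞ × ℕ∞) × (ℕ∞ × ℕ∞) in 𝓝 ((⊤, ⊤), (⊤, ⊤)),
        ((Sum.inl q.1, Sum.inl q.2) : Sp × Sp) ∈ V :=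
      h1.continuousAt.eventually (hVn _)
    rw [nhds_prod_eq, nhds_prod_eq] at h2
    have hb : (𝓝 (⊤ : ℕ∞)).HasBasis (fun _ : ℕ => True) fun n => Ici (n : ℕ∞) := by
      refine ⟨fun s => ?_⟩
      constructor
      · intro hs
        have := (nhds_top_basis (α := ℕ∞)).mem_iff.1 hs
        obtain ⟨c, hc, hcs⟩ := this
        lift c to ℕ using hc.ne
        refine ⟨c + 1, trivial, fun z hz => hcs ?_⟩
        have hz' : ((c + 1 : ℕ) : ℕ∞) ≤ z := hz
        refine lt_of_lt_of_le ?_ hz'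
        exact_mod_cast Nat.lt_succ_self c
      · rintro ⟨n, -, hn⟩
        refine mem_of_superset ?_ hn
        exact mem_of_superset (Ioi_mem_nhds (ENat.natCast_lt_top n)) Ioi_subset_Ici_self
    have hb2 := (hb.prod_self).prod_self
    obtain ⟨n, -, hn⟩ := hb2.mem_iff.1 h2
    refine ⟨n, fun a b c d ha hb hc hd => ?_⟩
    exact hn (show ((a, b), (c, d)) ∈ (Ici (n : ℕ∞) ×ˢ Ici (n : ℕ∞)) ×ˢ
      (Ici (n : ℕ∞) ×ˢ Ici (n : ℕ∞)) from ⟨⟨ha, hb⟩, ⟨hc, hd⟩⟩)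
  -- choice of L
  obtain ⟨L, hLM, hL⟩ : ∃ L : ℕ, M ≤ L ∧ ∀ i ≤ M,
      ((Sum.inl ((i : ℕ∞), ⊤), Sum.inl ((i : ℕ∞), (L : ℕ∞))) : Sp × Sp) ∈ V := by
    have h1 : ∀ i : ℕ, ∀ᶠ L : ℕ in atTop,
        ((Sum.inl ((i : ℕ∞), ⊤), Sum.inl ((i : ℕ∞), (L : ℕ∞))) : Sp × Sp) ∈ V := by
      intro i
      have h2 : Continuous fun q : ℕ∞ => ((Sum.inl ((i : ℕ∞), ⊤), Sum.inl ((i : ℕ∞), q)) : Sp × Sp) :=
        continuous_const.prodMk (continuous_inl.comp (continuous_const.prodMk continuous_id))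
      have h3 : ∀ᶠ q : ℕ∞ in 𝓝 ⊤, ((Sum.inl ((i : ℕ∞), ⊤), Sum.inl ((i : ℕ∞), q)) : Sp × Sp) ∈ V :=
        h2.continuousAt.eventually (hVn _)
      exact ENat.tendsto_natCast_nhds_top.eventually h3
    have h4 : ∀ᶠ L : ℕ in atTop, ∀ i ∈ Iic M,
        ((Sum.inl ((i : ℕ∞), ⊤), Sum.inl ((i : ℕ∞), (L : ℕ∞))) : Sp × Sp) ∈ V :=
      (finite_Iic M).eventually_all.2 fun i _ => h1 i
    obtain ⟨L, hL1, hL2⟩ := (h4.and (eventually_ge_atTop M)).exists
    exact ⟨L, hL2, fun i hi => hL1 i hi⟩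
  -- the pseudo-orbit
  let x : ℕ → Sp := fun i => if i ≤ M then Sum.inl ((i : ℕ∞), (L : ℕ∞))
    else if (i - M) % 2 = 1 then Sum.inl (⊤, (M : ℕ∞)) else Sum.inr (M : ℕ∞)
  have hx : IsPseudoOrbit1 Rel V x := by
    intro i y hy
    rw [mem_Rel] at hy
    by_cases h1 : i ≤ M
    · have hxi : x i = Sum.inl ((i : ℕ∞), (L : ℕ∞)) := by simp [x, h1]
      rw [hxi] at hy
      have hy' : y = Sum.inl (((i + 1 : ℕ) : ℕ∞), ⊤) := by
        rcases hy with ⟨m', l', h1, h2, h3⟩ | ⟨m', l', h1, h2, h3⟩ | ⟨m', l', h1, h2, h3⟩ |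
          ⟨m', l', h1, h2, h3⟩
        · simp only [Sum.inl.injEq, Prod.mk.injEq] at h2
          rw [h3, ← h2.1]; push_cast; rfl
        · simp only [Sum.inl.injEq, Prod.mk.injEq] at h3
          exact absurd h3.2 (ENat.natCast_ne_top L)
        · simp only [Sum.inl.injEq, Prod.mk.injEq] at h2
          obtain ⟨rfl, rfl⟩ := h2
          have : L + 1 ≤ i := by exact_mod_cast h1
          omega
        · simp at h3
      rw [hy']
      by_cases h2 : i + 1 ≤ M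
      · have : x (i + 1) = Sum.inl (((i + 1 : ℕ) : ℕ∞), (L : ℕ∞)) := by simp [x, h2]
        rw [this]
        exact hL (i + 1) h2
      · have h3 : i = M := by omega
        have : x (i + 1) = Sum.inl (⊤, (M : ℕ∞)) := by
          simp [x, h3]
        rw [this]
        refine hM _ _ _ _ ?_ le_top le_top le_rfl
        rw [h3]
        exact_mod_cast Nat.le_succ M
    · by_cases h2 : (i - M) % 2 = 1
      · have hxi : x i = Sum.inl (⊤, (M : ℕ∞)) := by simp [x, h1, h2]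
        rw [hxi] at hy
        have hx1 : x (i + 1) = Sum.inr (M : ℕ∞) := by
          have h3 : ¬ (i + 1 ≤ M) := by omega
          have h4 : ¬ ((i + 1 - M) % 2 = 1) := by omega
          simp only [x, h3, h4, if_false]
        have hy' : y = Sum.inr (M : ℕ∞) := by
          rcases hy with ⟨m', l', h1, h2, h3⟩ | ⟨m', l', h1, h2, h3⟩ | ⟨m', l', h1, h2, h3⟩ |
            ⟨m', l', h1, h2, h3⟩
          · simp only [Sum.inl.injEq, Prod.mk.injEq] at h2
            obtain ⟨rfl, rfl⟩ := h2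
            exact absurd (top_le_iff.1 h1) (ENat.natCast_ne_top M)
          · simp only [Sum.inl.injEq, Prod.mk.injEq] at h3
            exact absurd h3.2 (ENat.natCast_ne_top M)
          · simp only [Sum.inl.injEq, Prod.mk.injEq] at h2
            obtain ⟨rfl, rfl⟩ := h2
            exact h3
          · simp at h3
        rw [hy', hx1]
        exact hVr _
      · have hxi : x i = Sum.inr (M : ℕ∞) := by simp [x, h1, h2]
        rw [hxi] at hy
        have hx1 : x (i + 1) = Sum.inl (⊤, (M : ℕ∞)) := by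
          have h3 : ¬ (i + 1 ≤ M) := by omega
          have h4 : ((i + 1 - M) % 2 = 1) := by omega
          simp only [x, h3, h4, if_false, if_true]
        obtain ⟨m, hm, hy'⟩ : ∃ m : ℕ∞, (M : ℕ∞) + 1 ≤ m ∧ y = Sum.inl (m, (M : ℕ∞)) := by
          rcases hy with ⟨m', l', h1, h2, h3⟩ | ⟨m', l', h1, h2, h3⟩ | ⟨m', l', h1, h2, h3⟩ |
            ⟨m', l', h1, h2, h3⟩
          · simp at h2
          · simp at h3
          · simp at h2
          · simp only [Sum.inr.injEq] at h3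
            subst h3
            exact ⟨m', h1, h2⟩
        rw [hy', hx1]
        exact hM _ _ _ _ (le_self_add.trans hm) le_rfl le_top le_rfl
  obtain ⟨y, t, ht0, ht, htU⟩ := hVsh x hx
  have hx0 : x 0 ∈ C0 := ⟨(L : ℕ∞), by simp [x]⟩
  have ht0' : t 0 ∈ T := by
    have h1 := (htU 0).1
    have h2 : t 0 ∈ C0 := by
      rcases h1 with h | h
      · exact h.1
      · exact absurd hx0 h.2
    obtain ⟨l, hl⟩ := h2
    exact ⟨0, l, by simp, by simp, hl⟩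
  have htT : ∀ m, t m ∈ T := by
    intro m
    induction m with
    | zero => exact ht0'
    | succ k ih => exact T_inv (ht k) ih
  have hxD : x (M + 2) ∈ D := by
    refine ⟨(M : ℕ∞), ?_⟩
    have h3 : ¬ (M + 2 ≤ M) := by omega
    have h4 : ¬ ((M + 2 - M) % 2 = 1) := by omega
    simp only [x, h3, h4, if_false]
  have h5 := (htU (M + 2)).2
  have h6 : t (M + 2) ∈ D := by
    rcases h5 with h | h
    · exact h.1
    · exact absurd hxD h.2
  obtain ⟨l, hl⟩ := h6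
  obtain ⟨m', l', -, -, h7⟩ := htT (M + 2)
  rw [h7] at hl
  simp at hl

end Pool.Agent.Results.MP_cda11a_an.NoShadowing
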